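import Pool.Agent.H92.HB.Stm

/-!
# DIC of the project HB: the class fields of finite groups of characters
-/

set_option autoImplicit false
set_option linter.all false

open NumberField IsDedekindDomain
open scoped Classical

namespace Pool.Agent.H85.HB

open Pool.Agent.H92.HB

section
variable {k 𝓛 X : Type} [Field k] [NumberField k] [Field 𝓛] [Algebra k 𝓛] [CommGroup X]
  (κ : X →* ((𝓛 ≃ₐ[k] 𝓛) →* ℂˣ))

theorem mem_annG (H : Subgroup X) (σ : 𝓛 ≃ₐ[k] 𝓛) : σ ∈ annG κ H ↔ ∀ x ∈ H, κ x σ = 1 :=
  Iff.rfl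

theorem mem_fld (H : Subgroup X) (y : 𝓛) : y ∈ fld κ H ↔ ∀ σ ∈ annG κ H, σ y = y := by
  unfold fld
  rw [IntermediateField.mem_fixedField_iff]

/-- evaluation of the characters in `H` -/
def evH (H : Subgroup X) : (𝓛 ≃ₐ[k] 𝓛) →* (H →* ℂˣ) where
  toFun σ := 
    { toFun := fun x => κ (x : X) σ
      map_one' := by
        rw [OneMemClass.coe_one, map_one]
        rfl
      map_mul' := fun x y => by
        rw [Subgroup.coe_mul, map_mul]
        rfl }
  map_one' := by
    ext x
    show ((κ (x : X) 1 : ℂˣ) : ℂ) = 1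
    rw [map_one]
    rfl
  map_mul' σ τ := by
    ext x
    show ((κ (x : X) (σ * τ) : ℂˣ) : ℂ) = (((κ (x : X) σ) * (κ (x : X) τ) : ℂˣ) : ℂ)
    rw [map_mul]

theorem evH_apply (H : Subgroup X) (σ : 𝓛 ≃ₐ[k] 𝓛) (x : H) : evH κ H σ x = κ (x : X) σ := rfl

theorem ker_evH (H : Subgroup X) : (evH κ H).ker = annG κ H := by
  ext σ
  rw [MonoidHom.mem_ker, mem_annG]
  constructor
  · intro h x hx
    have := DFunLike.congr_fun h (⟨x, hx⟩ : H)
    exact this
  · intro h
    ext x
    rw [evH_apply, h x x.2]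
    rfl

theorem le_fix (H : Subgroup X) : annG κ H ≤ (fld κ H).fixingSubgroup := by
  intro σ hσ
  rw [IntermediateField.mem_fixingSubgroup_iff]
  intro y hy
  exact (mem_fld κ H y).1 hy σ hσ

theorem card_dual (H : Subgroup X) [Finite H] : Nat.card (H →* ℂˣ) = Nat.card H :=
  CommGroup.card_monoidHom_of_hasEnoughRootsOfUnity H ℂ

/-- the Galois group of the field -/
theorem main [IsGalois k 𝓛] (h0 : ∀ H : Subgroup X, Finite H → Module.finrank k (fld κ H) = Nat.card H)
    (H : Subgroup X) (hH : Finite H) :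
    Function.Surjective (evH κ H) ∧ (fld κ H).fixingSubgroup = annG κ H := by
  haveI := hH
  have hpos : 0 < Nat.card H := Nat.card_pos
  have h1 : (fld κ H).fixingSubgroup.index = Nat.card H := by
    rw [← IntermediateField.finrank_eq_fixingSubgroup_index, h0 H hH]
  have h2 : (annG κ H).index = Nat.card (evH κ H).range := by
    rw [← ker_evH, Subgroup.index_ker]
  haveI : Finite (H →* ℂˣ) := by
    apply Nat.finite_of_card_ne_zero
    rw [card_dual]
    omega
  have h3 : Nat.card (evH κ H).range ≤ Nat.card H := by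
    rw [← card_dual H]
    exact Subgroup.card_le_card_group _
  have h4 : (annG κ H).relIndex (fld κ H).fixingSubgroup * (fld κ H).fixingSubgroup.index =
      (annG κ H).index := Subgroup.relIndex_mul_index (le_fix κ H)
  have h2' : 0 < (annG κ H).index := by
    rw [h2]
    exact Nat.card_pos
  have h5 : (annG κ H).relIndex (fld κ H).fixingSubgroup = 1 := by
    rw [h1, h2] at h4
    rw [h2] at h2'
    have h6 : (annG κ H).relIndex (fld κ H).fixingSubgroup * Nat.card H ≤ 1 * Nat.card H := by
      rw [h4, one_mul]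
      exact h3
    have h7 := Nat.le_of_mul_le_mul_right h6 hpos
    have h8 : (annG κ H).relIndex (fld κ H).fixingSubgroup ≠ 0 := by
      intro h
      rw [h, zero_mul] at h4
      omega
    omega
  constructor
  · rw [← MonoidHom.range_eq_top]
    apply Subgroup.eq_top_of_card_eq
    rw [card_dual, ← h2, ← h4, h5, one_mul, h1]
  · exact le_antisymm (Subgroup.relIndex_eq_one.1 h5) (le_fix κ H)

theorem annG_normal (H : Subgroup X) : (annG κ H).Normal := by
  rw [← ker_evH]
  infer_instance

end

theorem t_DIC : S_DIC := by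
  intro k 𝓛 X _ _ _ _ _ _ κ h0 𝓕 h𝓕
  haveI := h𝓕
  have hpos : 0 < Nat.card 𝓕 := Nat.card_pos
  have hm := main κ h0 𝓕 h𝓕
  haveI : FiniteDimensional k (fld κ 𝓕) := by
    apply Module.finite_of_finrank_pos
    rw [h0 𝓕 h𝓕]
    exact hpos
  refine ⟨?_, inferInstance, ?_⟩
  · apply (InfiniteGalois.normal_iff_isGalois (fld κ 𝓕)).1
    rw [hm.2]
    exact annG_normal κ 𝓕
  · intro j
    letI : Algebra 𝓛 (AlgebraicClosure k) := j.toRingHom.toAlgebra
    haveI : IsScalarTower k 𝓛 (AlgebraicClosure k) := IsScalarTower.of_algebraMap_eq fun x => by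
      show _ = j (algebraMap k 𝓛 x)
      rw [j.commutes]
    haveI : Normal k (AlgebraicClosure k) := inferInstance
    let r : (AlgebraicClosure k ≃ₐ[k] AlgebraicClosure k) →* (𝓛 ≃ₐ[k] 𝓛) :=
      AlgEquiv.restrictNormalHom 𝓛
    have hr : Function.Surjective r := AlgEquiv.restrictNormalHom_surjective _
    have hrj : ∀ σ x, j (r σ x) = σ (j x) := fun σ x => 
      AlgEquiv.restrictNormal_commutes σ 𝓛 x
    refine ⟨(evH κ 𝓕).comp r, hm.1.comp hr, ?_⟩
    intro H hH σ
    haveI : Finite H := Finite.of_injective _ (Subgroup.inclusion_injective hH)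
    have hmH := main κ h0 H inferInstance
    have h1 : (∀ x : fld κ H, σ (j x) = j x) ↔ r σ ∈ (fld κ H).fixingSubgroup := by
      rw [IntermediateField.mem_fixingSubgroup_iff]
      constructor
      · intro h x hx
        apply j.injective
        show j (r σ x) = j x
        rw [hrj]
        exact h ⟨x, hx⟩
      · intro h x
        rw [← hrj, h x x.2]
    rw [h1, hmH.2, mem_annG]
    constructor
    · intro h x hx
      exact h x hx
    · intro h x hx
      exact h ⟨x, hH hx⟩ hx

end Pool.Agent.H85.HB
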